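import Pool.Agent.Lib.MP_1a91b9_ntS3.CM.Fam

/-!
# The final form for the curves with a point of order three, from the main statement over `ℚ(√-3)`
-/

set_option autoImplicit false
set_option linter.unusedSectionVars false

namespace Pool.Agent.Lib.MP_1a91b9_ntS3.CM

open NumberField WeierstrassCurve Pool.Agent.Lib.MP_1a91b9_ntI
open Pool.Agent.Lib.MP_1a91b9_ntS (BSDMod)
open Pool.Agent.Lib.MP_1a91b9_nuI (HasJ)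

noncomputable section

/-- The main statement over the cyclotomic field. -/
def MainQ3G : Prop := ∃ q : 𝓞 (CyclotomicField 3 ℚ) → ℚ,
    (∀ D : 𝓞 (CyclotomicField 3 ℚ), (∀ p, Prime p → ¬ p ^ 3 ∣ D) →
      ∀ W : WeierstrassCurve (CyclotomicField 3 ℚ),
        W = ⟨0, 0, (D : CyclotomicField 3 ℚ), 0, 0⟩ → BSDMod 3 W (q D)) ∧
    ∀ (n : ℕ) (s m u : 𝓞 (CyclotomicField 3 ℚ)), s ^ 2 = -3 → m ∣ 3 ^ n → ¬ (s ^ 3 ∣ m ∧ s ^ 3 ∣ u) →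
      Filter.Tendsto (fun X : ℝ =>
        (Nat.card {D : 𝓞 (CyclotomicField 3 ℚ) // (∀ p, Prime p → ¬ p ^ 3 ∣ D) ∧ m ∣ D - u ∧
          |Algebra.norm ℤ D| ≤ X ∧ ¬ 3 ∣ (q D).num} : ℝ) /
        (Nat.card {D : 𝓞 (CyclotomicField 3 ℚ) // (∀ p, Prime p → ¬ p ^ 3 ∣ D) ∧ m ∣ D - u ∧
          |Algebra.norm ℤ D| ≤ X} : ℝ)) Filter.atTop
        (nhds (∏' i : ℕ, (1 + 1 / (3 : ℝ) ^ (i + 1))⁻¹))

/-- The main statement over the field `K`. -/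
def TP3 (K : Type) [Field K] [NumberField K] : Prop := ∃ q : 𝓞 K → ℚ,
    (∀ D : 𝓞 K, (∀ p : 𝓞 K, Prime p → ¬ p ^ 3 ∣ D) → BSDMod 3 (W3 K D) (q D)) ∧
    ∀ (n : ℕ) (s m u : 𝓞 K), s ^ 2 = -3 → m ∣ 3 ^ n → ¬ (s ^ 3 ∣ m ∧ s ^ 3 ∣ u) →
      Filter.Tendsto (fun X : ℝ =>
        (Nat.card {D : 𝓞 K // (∀ p, Prime p → ¬ p ^ 3 ∣ D) ∧ m ∣ D - u ∧
          |Algebra.norm ℤ D| ≤ X ∧ ¬ 3 ∣ (q D).num} : ℝ) /
        (Nat.card {D : 𝓞 K // (∀ p, Prime p → ¬ p ^ 3 ∣ D) ∧ m ∣ D - u ∧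
          |Algebra.norm ℤ D| ≤ X} : ℝ)) Filter.atTop
        (nhds (∏' i : ℕ, (1 + 1 / (3 : ℝ) ^ (i + 1))⁻¹))

theorem MainQ3G.tp (h : MainQ3G) : TP3 K3 := by
  obtain ⟨q, h1, h2⟩ := h
  exact ⟨q, fun D hD => h1 D hD _ rfl, h2⟩

/-- **The main statement over an isomorphic field.** -/
theorem TP3.equiv {N N' : Type} [Field N] [NumberField N] [Field N'] [NumberField N'] (e : N ≃+* N')
    (hN : ∀ D : 𝓞 N, (∀ p : 𝓞 N, Prime p → ¬ p ^ 3 ∣ D) → D ≠ 0) (h : TP3 N) : TP3 N' := by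
  obtain ⟨q, h1, h2⟩ := h
  obtain ⟨E, hE⟩ : ∃ E : 𝓞 N ≃+* 𝓞 N', E = RingOfIntegers.mapRingEquiv e := ⟨_, rfl⟩
  have hEe : ∀ d : 𝓞 N, ((E d : 𝓞 N') : N') = e (d : N) := fun d => by
    rw [hE]
    rfl
  have hF : ∀ d : 𝓞 N, (∀ p, Prime p → ¬ p ^ 3 ∣ E d) ↔ ∀ p : 𝓞 N, Prime p → ¬ p ^ 3 ∣ d :=
    fun d => Fr_e E 3 d
  refine ⟨fun D => q (E.symm D), fun D hD => ?_, fun n s m u hs hm hu => ?_⟩
  · obtain ⟨d, rfl⟩ := E.surjective D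
    have hd := (hF d).1 hD
    have e1 : W3 N' (E d) = (W3 N d).map (e : N →+* N') := by
      unfold W3
      rw [hEe]
      ext <;> simp [WeierstrassCurve.map]
    have hΔ : (W3 N d).Δ ≠ 0 := W3_Δ fun h0 => hN d hd (nz_coe.1 h0)
    rw [e1]
    change BSDMod 3 _ (q (E.symm (E d)))
    rw [E.symm_apply_apply]
    exact (bsd_e e 3 _ hΔ (ls_e_hasJ e (W3_hasJ d)) _).2 (h1 d hd)
  · obtain ⟨m', rfl⟩ := E.surjective m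
    obtain ⟨u', rfl⟩ := E.surjective u
    obtain ⟨s', rfl⟩ := E.surjective s
    have hs' : s' ^ 2 = -3 := by
      apply E.injective
      rw [map_pow, hs, map_neg, map_ofNat]
    have hm' : m' ∣ 3 ^ n := by
      have e1 : (3 : 𝓞 N') ^ n = E (3 ^ n) := by
        rw [map_pow, map_ofNat]
      rw [e1] at hm
      exact (map_dvd_iff E).1 hm
    have hu' : ¬ (s' ^ 3 ∣ m' ∧ s' ^ 3 ∣ u') := by
      rintro ⟨h3, h4⟩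
      apply hu
      rw [← map_pow]
      exact ⟨(map_dvd_iff E).2 h3, (map_dvd_iff E).2 h4⟩
    have key := h2 n s' m' u' hs' hm' hu'
    have c1 : ∀ X : ℝ, Nat.card {D : 𝓞 N // (∀ p, Prime p → ¬ p ^ 3 ∣ D) ∧ m' ∣ D - u' ∧
          |Algebra.norm ℤ D| ≤ X ∧ ¬ 3 ∣ (q D).num} =
        Nat.card {D : 𝓞 N' // (∀ p, Prime p → ¬ p ^ 3 ∣ D) ∧ E m' ∣ D - E u' ∧
          |Algebra.norm ℤ D| ≤ X ∧ ¬ 3 ∣ (q (E.symm D)).num} := by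
      intro X
      refine Nat.card_congr (E.toEquiv.subtypeEquiv fun d => ?_)
      change _ ↔ (∀ p, Prime p → ¬ p ^ 3 ∣ E d) ∧ E m' ∣ E d - E u' ∧
        |Algebra.norm ℤ (E d)| ≤ X ∧ ¬ 3 ∣ (q (E.symm (E d))).num
      rw [hF, norm_e, ← map_sub, map_dvd_iff E, E.symm_apply_apply]
    have c2 : ∀ X : ℝ, Nat.card {D : 𝓞 N // (∀ p, Prime p → ¬ p ^ 3 ∣ D) ∧ m' ∣ D - u' ∧
          |Algebra.norm ℤ D| ≤ X} =
        Nat.card {D : 𝓞 N' // (∀ p, Prime p → ¬ p ^ 3 ∣ D) ∧ E m' ∣ D - E u' ∧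
          |Algebra.norm ℤ D| ≤ X} := by
      intro X
      refine Nat.card_congr (E.toEquiv.subtypeEquiv fun d => ?_)
      change _ ↔ (∀ p, Prime p → ¬ p ^ 3 ∣ E d) ∧ E m' ∣ E d - E u' ∧ |Algebra.norm ℤ (E d)| ≤ X
      rw [hF, norm_e, ← map_sub, map_dvd_iff E]
    simp only [c1, c2] at key
    exact key

/-- **The final form**, from the main statement over `ℚ(√-3)`. -/
theorem main_all3_of (h : MainQ3G) (K : Type) [Field K] [NumberField K]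
    (h2 : Module.finrank ℚ K = 2) :
    ((∃ W : WeierstrassCurve K, CM3 W) ↔ discr K = -3) ∧
    (discr K = -3 → ∃ (s : 𝓞 K) (q : 𝓞 K → ℚ), s ^ 2 = -3 ∧
      (∀ W : WeierstrassCurve K, CM3 W ↔ ∃ D : 𝓞 K, (∀ p : 𝓞 K, Prime p → ¬ p ^ 3 ∣ D) ∧
        ∃ C : VariableChange K, C • W = W3 K D) ∧
      (∀ D D' : 𝓞 K, (∀ p : 𝓞 K, Prime p → ¬ p ^ 3 ∣ D) → (∀ p : 𝓞 K, Prime p → ¬ p ^ 3 ∣ D') →
        ((∃ C : VariableChange K, C • W3 K D = W3 K D') ↔ D' = D ∨ D' = -D)) ∧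
      (∀ (D : 𝓞 K) (W : WeierstrassCurve K) (C : VariableChange K),
        (∀ p : 𝓞 K, Prime p → ¬ p ^ 3 ∣ D) → C • W = W3 K D → BSDMod 3 W (q D)) ∧
      ∀ (n : ℕ) (m u : 𝓞 K), m ∣ 3 ^ n → ¬ (s ^ 3 ∣ m ∧ s ^ 3 ∣ u) →
        Filter.Tendsto (fun X : ℝ =>
          (Nat.card {D : 𝓞 K // (∀ p, Prime p → ¬ p ^ 3 ∣ D) ∧ m ∣ D - u ∧
            |Algebra.norm ℤ D| ≤ X ∧ ¬ 3 ∣ (q D).num} : ℝ) /
          (Nat.card {D : 𝓞 K // (∀ p, Prime p → ¬ p ^ 3 ∣ D) ∧ m ∣ D - u ∧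
            |Algebra.norm ℤ D| ≤ X} : ℝ)) Filter.atTop
          (nhds (∏' i : ℕ, (1 + 1 / (3 : ℝ) ^ (i + 1))⁻¹))) := by
  refine ⟨exists_cm3_iff h2, fun hd => ?_⟩
  obtain ⟨θ, hθ⟩ := theta_of_disc h2 hd
  have hp := pir_w h2 hθ
  have hp3 := pirK3
  obtain ⟨e, -⟩ := iso_w3 h2 hθ
  obtain ⟨q, h3, h4⟩ := h.tp.equiv e fun D hD => Fr_ne_zero finK3 (w := 3) hD
  have hs : (2 * θ - 1) ^ 2 = (-3 : 𝓞 K) := by linear_combination 4 * hθ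
  refine ⟨2 * θ - 1, q, hs, cm3_iff h2 hθ, fun D D' hD hD' => iso3_iff h2 hθ hD hD', ?_,
    fun n m u hm hu => h4 n _ m u hs hm hu⟩
  intro D W C hD hC
  have hD0 : (D : K) ≠ 0 := fun h0 => Fr_ne_zero h2 (w := 3) hD (nz_coe.1 h0)
  have hW : W = C⁻¹ • W3 K D := by rw [← hC, inv_smul_smul]
  rw [hW]
  exact (bsd_vc 3 _ (W3_Δ hD0) C⁻¹ (fun s => ls_vc _ _ 0 (W3_hasJ D) s) _).2 (h3 D hD)

end

end Pool.Agent.Lib.MP_1a91b9_ntS3.CM
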