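import Pool.Agent.Lib.MP_1a91b9_ntS3.CM.Three
import Pool.Agent.Lib.MP_1a91b9_ntI.KEq3
import Pool.Agent.Lib.MP_1a91b9_ntI.TrBsd

/-!
# The curves `y² + D y = x³` over `ℚ(√-3)`

`cm3_iff`: these are the elliptic curves over a field of discriminant `-3` with a rational point of order
three and an automorphism other than `1`, `-1`. `iso3_iff`: two of them are isomorphic if and only if
`D' = D` or `D' = -D`.
-/

set_option autoImplicit false
set_option linter.unusedSectionVars false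

namespace Pool.Agent.Lib.MP_1a91b9_ntS3.CM

open NumberField WeierstrassCurve Pool.Agent.Lib.MP_1a91b9_ntI
open Pool.Agent.Lib.MP_1a91b9_nuI (HasJ)

noncomputable section

/-- The curve `y² + D y = x³`. -/
def W3 (K : Type) [Field K] (D : 𝓞 K) : WeierstrassCurve K := ⟨0, 0, (D : K), 0, 0⟩

section

variable {K : Type} [Field K]

theorem W3_tc (D : 𝓞 K) : W3 K D = tc 0 (D : K) := rfl

theorem W3_Δ [CharZero K] {D : 𝓞 K} (hD : (D : K) ≠ 0) : (W3 K D).Δ ≠ 0 := by
  rw [W3_tc, tc_Δ]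
  have e : (D : K) ^ 3 * ((0 : K) ^ 3 - 27 * (D : K)) = -27 * (D : K) ^ 4 := by ring
  rw [e]
  exact mul_ne_zero (by norm_num) (pow_ne_zero 4 hD)

theorem tc_scale {e d : K} (he : e ≠ 0) :
    (⟨Units.mk0 e he, 0, 0, 0⟩ : VariableChange K) • tc 0 (e ^ 3 * d) = tc 0 d := by
  have hui : ((((⟨Units.mk0 e he, 0, 0, 0⟩ : VariableChange K).u)⁻¹ : Kˣ) : K) = e⁻¹ := by
    rw [Units.val_inv_eq_inv_val]
    rfl
  have h1 : e * e⁻¹ = 1 := mul_inv_cancel₀ he
  ext
  · rw [variableChange_a₁, hui]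
    simp only [tc]
    ring
  · rw [variableChange_a₂, hui]
    simp only [tc]
    ring
  · rw [variableChange_a₃, hui]
    simp only [tc]
    linear_combination d * ((e * e⁻¹) ^ 2 + e * e⁻¹ + 1) * h1
  · rw [variableChange_a₄, hui]
    simp only [tc]
    ring
  · rw [variableChange_a₆, hui]
    simp only [tc]
    ring

end

variable {K : Type} [Field K] [NumberField K]

theorem W3_hasJ (D : 𝓞 K) : HasJ (W3 K D) 0 := by
  unfold HasJ
  rw [W3_tc, tc_c₄]
  push_cast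
  ring

/-- a cube root of unity -/
theorem theta_of_w {w : K} (hw : w ^ 2 + w + 1 = 0) : ∃ θ : 𝓞 K, θ ^ 2 = θ - 1 ∧ (θ : K) = -w := by
  have hi : IsIntegral ℤ (-w) := by
    refine ⟨Polynomial.X ^ 2 + (Polynomial.C (-1) * Polynomial.X + Polynomial.C 1), ?_, ?_⟩
    · apply Polynomial.monic_X_pow_add
      refine (Polynomial.degree_linear_le).trans_lt ?_
      norm_num
    · rw [Polynomial.eval₂_add, Polynomial.eval₂_add, Polynomial.eval₂_pow, Polynomial.eval₂_mul,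
        Polynomial.eval₂_X, Polynomial.eval₂_C, Polynomial.eval₂_C]
      simp only [map_neg, map_one]
      linear_combination hw
  refine ⟨⟨-w, hi⟩, ?_, rfl⟩
  apply RingOfIntegers.ext
  change algebraMap (𝓞 K) K (⟨-w, hi⟩ ^ 2) = algebraMap (𝓞 K) K (⟨-w, hi⟩ - 1)
  rw [map_pow, map_sub, map_one]
  change (-w) ^ 2 = -w - 1
  linear_combination hw

/-- the discriminant of `ℚ(√-3)` -/
theorem disc_of_theta (hK : Module.finrank ℚ K = 2) {θ : 𝓞 K} (hθ : θ ^ 2 = θ - 1) :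
    discr K = -3 := by
  obtain ⟨d, hd⟩ := disc_sq hK (x := θ) (t := 1) (n := 1) (by rw [hθ]; push_cast; ring) (by norm_num)
  have h1 : d ^ 2 ∣ 3 := ⟨-discr K, by linear_combination -hd⟩
  have h2 : d ^ 2 ≤ 3 := Int.le_of_dvd (by norm_num) h1
  have h3 : d ≤ 1 := by nlinarith
  have h4 : -1 ≤ d := by nlinarith
  interval_cases d <;> omega

theorem theta_of_disc (hK : Module.finrank ℚ K = 2) (h : discr K = -3) :
    ∃ θ : 𝓞 K, θ ^ 2 = θ - 1 := by
  obtain ⟨x, hx⟩ := of_discr hK (by rw [h]; norm_num) (by rw [h]; norm_num)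
  have key : ∀ t n : ℤ, x ^ 2 = (t : 𝓞 K) * x - (n : 𝓞 K) → t ^ 2 - 4 * n < 0 →
      ∃ d : ℤ, t ^ 2 - 4 * n = d ^ 2 * (-3) := by
    intro t n h1 h2
    obtain ⟨d, hd⟩ := disc_sq hK h1 h2
    rw [h] at hd
    exact ⟨d, hd⟩
  rcases hx with h1 | h1 | h1 | h1
  · obtain ⟨d, hd⟩ := key 0 1 (by rw [h1]; push_cast; ring) (by norm_num)
    omega
  · obtain ⟨d, hd⟩ := key 0 2 (by rw [h1]; push_cast; ring) (by norm_num)
    omega
  · obtain ⟨d, hd⟩ := key 1 2 (by rw [h1]; push_cast; ring) (by norm_num)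
    omega
  · exact ⟨x, h1⟩

/-- **The family is the family of all the curves.** -/
theorem cm3_iff [IsPrincipalIdealRing (𝓞 K)] (hK : Module.finrank ℚ K = 2) {θ : 𝓞 K}
    (hθ : θ ^ 2 = θ - 1) (W : WeierstrassCurve K) :
    CM3 W ↔ ∃ D : 𝓞 K, (∀ p : 𝓞 K, Prime p → ¬ p ^ 3 ∣ D) ∧ ∃ C : VariableChange K,
      C • W = W3 K D := by
  have hθ' : (θ : K) ^ 2 = (θ : K) - 1 := coe_w hθ
  have hs := th3 hθ'
  constructor
  · intro h
    rcases cm3_fwd h with ⟨w, d, hw, hd, C, hC⟩ | ⟨i, t, hi, -⟩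
    · obtain ⟨D, e, he, hD, h1, h2⟩ := exists_free three_ne_zero hd
      refine ⟨D, h2, (⟨Units.mk0 e he, 0, 0, 0⟩ : VariableChange K) * C, ?_⟩
      rw [mul_smul, hC, h1]
      exact tc_scale he
    · exact (excl6 hK hi hs).elim
  · rintro ⟨D, hD, C, hC⟩
    exact cm3_bwd (w := (θ : K) - 1) (d := (D : K)) (by linear_combination hθ')
      (fun h => Fr_ne_zero hK (w := 3) hD (nz_coe.1 h)) hC

/-- **The isomorphisms.** -/
theorem iso3_iff [IsPrincipalIdealRing (𝓞 K)] (hK : Module.finrank ℚ K = 2) {θ : 𝓞 K}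
    (hθ : θ ^ 2 = θ - 1) {D D' : 𝓞 K} (hD : ∀ p : 𝓞 K, Prime p → ¬ p ^ 3 ∣ D)
    (hD' : ∀ p : 𝓞 K, Prime p → ¬ p ^ 3 ∣ D') :
    (∃ C : VariableChange K, C • W3 K D = W3 K D') ↔ D' = D ∨ D' = -D := by
  have hr := emp_w hθ
  constructor
  · rintro ⟨C, hC⟩
    obtain ⟨v, hv, -, h6⟩ := c46 hC
    rw [W3_tc, W3_tc, tc_c₆, tc_c₆] at h6
    have h1 : ((D' : K) - v ^ 3 * (D : K)) * ((D' : K) - (-v) ^ 3 * (D : K)) = 0 := by
      have h216 : (-216 : K) ≠ 0 := by norm_num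
      refine mul_left_cancel₀ h216 ?_
      linear_combination h6
    have hD0 : D ≠ 0 := Fr_ne_zero hK (w := 3) hD
    have key : ∀ u : K, u ≠ 0 → (D' : K) = u ^ 3 * (D : K) → D' = D ∨ D' = -D := by
      intro u hu h2
      obtain ⟨ε, hε, hεu⟩ := unit_of_free hu hD hD' h2
      have h3 : D' = ε ^ 3 * D := by
        apply RingOfIntegers.ext
        change (D' : K) = algebraMap (𝓞 K) K (ε ^ 3 * D)
        rw [map_mul, map_pow, h2, ← hεu]
      have h4 : ε ^ 3 = 1 ∨ ε ^ 3 = -1 := by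
        rcases units_w hK hr hθ hε with h | h | h | h | h | h
        · left; rw [h]; ring
        · right; rw [h]; ring
        · right; rw [h]; linear_combination (θ + 1) * hθ
        · left; rw [h]; linear_combination -(θ + 1) * hθ
        · right; rw [h]; linear_combination (2 - θ) * hθ
        · left; rw [h]; linear_combination -(2 - θ) * hθ
      rcases h4 with h | h
      · left; rw [h3, h, one_mul]
      · right; rw [h3, h, neg_one_mul]
    rcases mul_eq_zero.1 h1 with h | h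
    · exact key v hv (sub_eq_zero.1 h)
    · exact key (-v) (neg_ne_zero.2 hv) (sub_eq_zero.1 h)
  · rintro (rfl | rfl)
    · exact ⟨1, one_smul _ _⟩
    · have h1 : (-1 : K) ≠ 0 := neg_ne_zero.2 one_ne_zero
      refine ⟨⟨Units.mk0 (-1) h1, 0, 0, 0⟩, ?_⟩
      have h2 := tc_scale (d := ((-D : 𝓞 K) : K)) h1
      have e : (-1 : K) ^ 3 * ((-D : 𝓞 K) : K) = (D : K) := by
        have e1 : ((-D : 𝓞 K) : K) = -(D : K) := map_neg (algebraMap (𝓞 K) K) D
        rw [e1]
        ring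
      rw [e] at h2
      exact h2

/-- the curves exist only over the field of discriminant `-3` -/
theorem exists_cm3_iff (hK : Module.finrank ℚ K = 2) :
    (∃ W : WeierstrassCurve K, CM3 W) ↔ discr K = -3 := by
  constructor
  · rintro ⟨W, hW⟩
    rcases cm3_fwd hW with ⟨w, d, hw, -⟩ | ⟨i, t, hi, ht⟩
    · obtain ⟨θ, hθ, -⟩ := theta_of_w hw
      exact disc_of_theta hK hθ
    · refine (excl hK (a := -1) (b := 3) (by rw [hi]; push_cast; rfl) (by rw [ht]; push_cast; rfl)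
        ns1 ?_ ?_).elim
      · exact nsq_of (m := 1) (by norm_num) (by norm_num) (by norm_num)
      · have e : (-1 : ℤ) * 3 = -3 := by norm_num
        rw [e]
        exact ns3
  · intro h
    obtain ⟨θ, hθ⟩ := theta_of_disc hK h
    have hθ' : (θ : K) ^ 2 = (θ : K) - 1 := coe_w hθ
    exact ⟨tc 0 1, cm3_bwd (w := (θ : K) - 1) (d := 1) (by linear_combination hθ') one_ne_zero
      (C := 1) (one_smul _ _)⟩

end

end Pool.Agent.Lib.MP_1a91b9_ntS3.CM
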