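import Pool.Agent.Lib.MP_1a91b9_ntI.Cls3

/-!
# The elliptic curves with a rational point of order three and an automorphism other than `1`, `-1`

`three_iff`: a curve has a rational point of order three if and only if it is isomorphic to a curve
`y² + a x y + b y = x³`. `CM3 W`: `W` is an elliptic curve with a rational point of order three and an
automorphism other than `1`, `-1`. `cm3_fwd`, `cm3_bwd`: these are the curves `y² + d y = x³` over the fields
with a primitive cube root of unity (or the field contains the square roots of `-1` and `3`).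
-/

set_option autoImplicit false
set_option linter.unusedSectionVars false

namespace Pool.Agent.Lib.MP_1a91b9_ntS3.CM

open WeierstrassCurve Pool.Agent.Lib.MP_1a91b9_ntI

section

variable {K : Type*} [Field K]

/-- the curve `y² + a x y + b y = x³` -/
def tc (a b : K) : WeierstrassCurve K := ⟨a, 0, b, 0, 0⟩

theorem tc_Δ (a b : K) : (tc a b).Δ = b ^ 3 * (a ^ 3 - 27 * b) := by
  simp only [tc, WeierstrassCurve.Δ, WeierstrassCurve.b₂, WeierstrassCurve.b₄,
    WeierstrassCurve.b₆, WeierstrassCurve.b₈]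
  ring

theorem tc_c₄ (a b : K) : (tc a b).c₄ = a * (a ^ 3 - 24 * b) := by
  simp only [tc, WeierstrassCurve.c₄, WeierstrassCurve.b₂, WeierstrassCurve.b₄]
  ring

theorem tc_c₆ (a b : K) : (tc a b).c₆ = -a ^ 6 + 36 * a ^ 3 * b - 216 * b ^ 2 := by
  simp only [tc, WeierstrassCurve.c₆, WeierstrassCurve.b₂, WeierstrassCurve.b₄,
    WeierstrassCurve.b₆]
  ring

theorem Δ_ne_of {W W' : WeierstrassCurve K} {C : VariableChange K} (h : C • W = W') (h' : W'.Δ ≠ 0) :
    W.Δ ≠ 0 := by
  intro h0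
  have h1 := variableChange_Δ W C
  rw [h, h0, mul_zero] at h1
  exact h' h1

theorem Δ_ne_of' {W W' : WeierstrassCurve K} {C : VariableChange K} (h : C • W = W') (h' : W.Δ ≠ 0) :
    W'.Δ ≠ 0 := by
  refine Δ_ne_of (C := C⁻¹) ?_ h'
  rw [← h, inv_smul_smul]

/-- **The curves with a point of order three.** -/
theorem three_iff [DecidableEq K] (W : WeierstrassCurve K) (hΔ : W.Δ ≠ 0) :
    (∃ P : W.toAffine.Point, P ≠ 0 ∧ 3 • P = 0) ↔
      ∃ (a b : K) (C : VariableChange K), C • W = tc a b := by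
  constructor
  · rintro ⟨P, hP, hP3⟩
    rcases P with _ | ⟨x, y, hns⟩
    · exact (hP rfl).elim
    · have h1 : Affine.Point.some _ _ hns + Affine.Point.some _ _ hns = -Affine.Point.some _ _ hns := by
        rw [← add_eq_zero_iff_eq_neg, ← two_nsmul, ← succ_nsmul]
        exact hP3
      have hy : y ≠ W.toAffine.negY x y := by
        intro hy
        rw [Affine.Point.add_self_of_Y_eq hy] at h1
        exact hP (neg_eq_zero.1 h1.symm)
      rw [Affine.Point.add_self_of_Y_ne hy, Affine.Point.neg_some, Affine.Point.some.injEq] at h1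
      obtain ⟨hx, -⟩ := h1
      rw [Affine.slope_of_Y_ne rfl hy] at hx
      have hd : y - W.toAffine.negY x y ≠ 0 := sub_ne_zero.2 hy
      obtain ⟨l, hl⟩ : ∃ l : K, l = (3 * x ^ 2 + 2 * W.a₂ * x + W.a₄ - W.a₁ * y) /
        (y - W.toAffine.negY x y) := ⟨_, rfl⟩
      have hl' : l * (y - W.toAffine.negY x y) = 3 * x ^ 2 + 2 * W.a₂ * x + W.a₄ - W.a₁ * y := by
        rw [hl, div_mul_cancel₀ _ hd]
      change W.toAffine.addX x x ((3 * x ^ 2 + 2 * W.a₂ * x + W.a₄ - W.a₁ * y) /
        (y - W.toAffine.negY x y)) = x at hx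
      rw [← hl, Affine.addX] at hx
      rw [Affine.negY] at hl'
      have heq := (Affine.equation_iff _ _).1 hns.1
      obtain ⟨C, hC⟩ : ∃ C : VariableChange K, C = ⟨1, x, l, y⟩ := ⟨_, rfl⟩
      have hui : ((C.u⁻¹ : Kˣ) : K) = 1 := by rw [hC, inv_one, Units.val_one]
      refine ⟨(C • W).a₁, (C • W).a₃, C, ?_⟩
      unfold tc
      have e2 : (C • W).a₂ = 0 := by
        rw [variableChange_a₂, hui, hC]
        change 1 ^ 2 * (W.a₂ - l * W.a₁ + 3 * x - l ^ 2) = 0
        linear_combination -hx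
      have e4 : (C • W).a₄ = 0 := by
        rw [variableChange_a₄, hui, hC]
        change 1 ^ 4 * (W.a₄ - l * W.a₃ + 2 * x * W.a₂ - (y + x * l) * W.a₁ + 3 * x ^ 2 -
          2 * l * y) = 0
        linear_combination -hl'
      have e6 : (C • W).a₆ = 0 := by
        rw [variableChange_a₆, hui, hC]
        change 1 ^ 6 * (W.a₆ + x * W.a₄ + x ^ 2 * W.a₂ + x ^ 3 - y * W.a₃ - y ^ 2 -
          x * y * W.a₁) = 0
        linear_combination -heq
      ext
      · rfl
      · exact e2
      · rfl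
      · exact e4
      · exact e6
  · rintro ⟨a, b, C, hC⟩
    have hb : b ≠ 0 := by
      rintro rfl
      have h1 := Δ_ne_of' hC hΔ
      rw [tc_Δ] at h1
      apply h1
      ring
    have e2 := congrArg WeierstrassCurve.a₂ hC
    have e3 := congrArg WeierstrassCurve.a₃ hC
    have e4 := congrArg WeierstrassCurve.a₄ hC
    have e6 := congrArg WeierstrassCurve.a₆ hC
    rw [variableChange_a₂] at e2
    rw [variableChange_a₃] at e3
    rw [variableChange_a₄] at e4
    rw [variableChange_a₆] at e6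
    have hu : ((C.u⁻¹ : Kˣ) : K) ≠ 0 := Units.ne_zero _
    have e2' : W.a₂ - C.s * W.a₁ + 3 * C.r - C.s ^ 2 = 0 :=
      (mul_eq_zero.1 (e2.trans (by rfl))).resolve_left (pow_ne_zero 2 hu)
    have e3' : W.a₃ + C.r * W.a₁ + 2 * C.t ≠ 0 := by
      intro h
      rw [h, mul_zero] at e3
      exact hb e3.symm
    have e4' : W.a₄ - C.s * W.a₃ + 2 * C.r * W.a₂ - (C.t + C.r * C.s) * W.a₁ + 3 * C.r ^ 2 -
        2 * C.s * C.t = 0 :=
      (mul_eq_zero.1 (e4.trans (by rfl))).resolve_left (pow_ne_zero 4 hu)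
    have e6' : W.a₆ + C.r * W.a₄ + C.r ^ 2 * W.a₂ + C.r ^ 3 - C.t * W.a₃ - C.t ^ 2 -
        C.r * C.t * W.a₁ = 0 :=
      (mul_eq_zero.1 (e6.trans (by rfl))).resolve_left (pow_ne_zero 6 hu)
    have heq : W.toAffine.Equation C.r C.t := by
      rw [Affine.equation_iff]
      linear_combination -e6'
    have hns : W.toAffine.Nonsingular C.r C.t :=
      (Affine.equation_iff_nonsingular_of_Δ_ne_zero hΔ).1 heq
    refine ⟨Affine.Point.some _ _ hns, fun h => Affine.Point.some_ne_zero _ h, ?_⟩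
    have hd : C.t - W.toAffine.negY C.r C.t ≠ 0 := by
      rw [Affine.negY]
      intro h
      apply e3'
      linear_combination h
    have hy : C.t ≠ W.toAffine.negY C.r C.t := sub_ne_zero.1 hd
    have hs : W.toAffine.slope C.r C.r C.t C.t = C.s := by
      rw [Affine.slope_of_Y_ne rfl hy, div_eq_iff hd, Affine.negY]
      linear_combination e4'
    rw [succ_nsmul, two_nsmul, add_eq_zero_iff_eq_neg, Affine.Point.add_self_of_Y_ne hy,
      Affine.Point.neg_some, Affine.Point.some.injEq, hs]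
    have hx : W.toAffine.addX C.r C.r C.s = C.r := by
      rw [Affine.addX]
      linear_combination -e2'
    refine ⟨hx, ?_⟩
    rw [Affine.addY, Affine.negAddY, hx]
    congr 1
    ring

open Classical in
/-- `W` is an elliptic curve with a `K`-rational point of order three and an automorphism over `K` other than
`1`, `-1`. -/
def CM3 {K : Type*} [Field K] (W : WeierstrassCurve K) : Prop :=
  W.Δ ≠ 0 ∧ (∃ C : VariableChange K, C • W = W ∧ (C.u : K) ^ 2 ≠ 1) ∧
    ∃ P : W.toAffine.Point, P ≠ 0 ∧ 3 • P = 0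

/-- the automorphism of order three of `y² + d y = x³` -/
theorem autN_tc [CharZero K] {w d : K} (hw : w ^ 2 + w + 1 = 0) : AutN (tc 0 d) := by
  have hw3 : w * w ^ 2 = 1 := by linear_combination (w - 1) * hw
  have hw3' : w ^ 2 * w = 1 := by linear_combination (w - 1) * hw
  refine ⟨⟨⟨w ^ 2, w, hw3', hw3⟩, 0, 0, 0⟩, ?_, fun h => ?_⟩
  · have hui : ((((⟨⟨w ^ 2, w, hw3', hw3⟩, 0, 0, 0⟩ : VariableChange K).u)⁻¹ : Kˣ) : K) = w := rfl
    have w3 : w ^ 3 = 1 := by linear_combination (w - 1) * hw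
    ext
    · rw [variableChange_a₁, hui]
      simp only [tc]
      ring
    · rw [variableChange_a₂, hui]
      simp only [tc]
      ring
    · rw [variableChange_a₃, hui]
      simp only [tc]
      linear_combination d * w3
    · rw [variableChange_a₄, hui]
      simp only [tc]
      ring
    · rw [variableChange_a₆, hui]
      simp only [tc]
      ring
  · have h4 : (w ^ 2) ^ 2 = 1 := h
    have h5 : w = 1 := by linear_combination h4 - (w ^ 2 - w) * hw
    rw [h5] at hw
    have h3 : (3 : K) ≠ 0 := three_ne_zero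
    apply h3
    linear_combination hw

/-- if `c₄ = 0` and `a ≠ 0` all the points of order three are rational -/
theorem tc_change [CharZero K] {a b w : K} (h24 : a ^ 3 = 24 * b) (hw : w ^ 2 + w + 1 = 0) :
    (⟨1, -a ^ 2 / 12, -a / 2, ((2 * w + 1) * b / 3 + b) / 2⟩ : VariableChange K) • tc a b =
      tc 0 ((2 * w + 1) * b / 3) := by
  have hui : ((((⟨1, -a ^ 2 / 12, -a / 2, ((2 * w + 1) * b / 3 + b) / 2⟩ : VariableChange K).u)⁻¹ :
      Kˣ) : K) = 1 := by rw [inv_one, Units.val_one]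
  ext
  · rw [variableChange_a₁, hui]
    simp only [tc]
    ring
  · rw [variableChange_a₂, hui]
    simp only [tc]
    ring
  · rw [variableChange_a₃, hui]
    simp only [tc]
    linear_combination (-(1 / 12 : K)) * h24
  · rw [variableChange_a₄, hui]
    simp only [tc]
    linear_combination (-(a / 48)) * h24
  · rw [variableChange_a₆, hui]
    simp only [tc]
    linear_combination (-(a ^ 3 + 24 * b) / 1728 + ((2 * w + 1) * b / 3 + b) / 24) * h24 -
      (b ^ 2 / 9) * hw

/-- **The curves with a point of order three and an automorphism other than `1`, `-1`.** -/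
theorem cm3_fwd [CharZero K] {W : WeierstrassCurve K} (h : CM3 W) :
    (∃ w d : K, w ^ 2 + w + 1 = 0 ∧ d ≠ 0 ∧ ∃ C : VariableChange K, C • W = tc 0 d) ∨
      ∃ i t : K, i ^ 2 = -1 ∧ t ^ 2 = 3 := by
  classical
  obtain ⟨hΔ, hA, hP⟩ := h
  obtain ⟨a, b, C, hC⟩ := (three_iff W hΔ).1 hP
  have hΔ' := Δ_ne_of' hC hΔ
  rw [tc_Δ] at hΔ'
  have hb : b ≠ 0 := by
    rintro rfl
    apply hΔ'
    ring
  have hA' : AutN (tc a b) := by
    rw [← hC]
    apply autN_smul C⁻¹
    rw [inv_smul_smul]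
    exact hA
  obtain ⟨v, hv, hv2, hc4, hc6⟩ := autN_u hA'
  rw [tc_c₄] at hc4
  rw [tc_c₆] at hc6
  have hw6 : v ^ 6 = 1 → (v ^ 2) ^ 2 + v ^ 2 + 1 = 0 := by
    intro hv6
    have h7 : (v ^ 2 - 1) * ((v ^ 2) ^ 2 + v ^ 2 + 1) = 0 := by linear_combination hv6
    exact (mul_eq_zero.1 h7).resolve_left (sub_ne_zero.2 hv2)
  by_cases h0 : a * (a ^ 3 - 24 * b) = 0
  · left
    rcases mul_eq_zero.1 h0 with h1 | h1
    · rw [h1] at hc6 hC
      have hv6 : v ^ 6 = 1 := by
        have hne : (-216 : K) * b ^ 2 ≠ 0 := mul_ne_zero (by norm_num) (pow_ne_zero 2 hb)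
        exact mul_right_cancel₀ hne (by linear_combination hc6)
      exact ⟨v ^ 2, b, hw6 hv6, hb, C, hC⟩
    · have h24 : a ^ 3 = 24 * b := by linear_combination h1
      have hv6 : v ^ 6 = 1 := by
        have hne : (72 : K) * b ^ 2 ≠ 0 := mul_ne_zero (by norm_num) (pow_ne_zero 2 hb)
        refine mul_right_cancel₀ hne ?_
        linear_combination hc6 + (v ^ 6 - 1) * (a ^ 3 - 12 * b) * h24
      have hw := hw6 hv6
      refine ⟨v ^ 2, (2 * v ^ 2 + 1) * b / 3, hw, ?_, _ * C, by rw [mul_smul, hC]; exact tc_change h24 hw⟩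
      refine div_ne_zero (mul_ne_zero ?_ hb) three_ne_zero
      intro h2
      have h3 : (3 : K) = 0 := by
        linear_combination 4 * hw - (2 * v ^ 2 + 1) * h2
      exact three_ne_zero h3
  · right
    have hv4 : v ^ 4 = 1 := mul_right_cancel₀ h0 (by rw [hc4, one_mul])
    have hv2' : v ^ 2 = -1 := by
      have h7 : (v ^ 2 - 1) * (v ^ 2 + 1) = 0 := by linear_combination hv4
      have h8 := (mul_eq_zero.1 h7).resolve_left (sub_ne_zero.2 hv2)
      linear_combination h8
    have hv6 : v ^ 6 = -1 := by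
      have : v ^ 6 = (v ^ 2) ^ 3 := by ring
      rw [this, hv2']
      ring
    rw [hv6] at hc6
    have h5 : (a ^ 3 - 18 * b) ^ 2 = 108 * b ^ 2 := by
      have h2 : (2 : K) ≠ 0 := two_ne_zero
      refine mul_left_cancel₀ h2 ?_
      linear_combination hc6
    refine ⟨v, (a ^ 3 - 18 * b) / (6 * b), hv2', ?_⟩
    rw [div_pow, h5, div_eq_iff (pow_ne_zero 2 (mul_ne_zero (by norm_num) hb))]
    ring

theorem cm3_bwd [CharZero K] {W : WeierstrassCurve K} {w d : K} (hw : w ^ 2 + w + 1 = 0) (hd : d ≠ 0)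
    {C : VariableChange K} (hC : C • W = tc 0 d) : CM3 W := by
  classical
  have hΔ : W.Δ ≠ 0 := by
    refine Δ_ne_of hC ?_
    rw [tc_Δ]
    have e : d ^ 3 * ((0 : K) ^ 3 - 27 * d) = -27 * d ^ 4 := by ring
    rw [e]
    exact mul_ne_zero (by norm_num) (pow_ne_zero 4 hd)
  refine ⟨hΔ, autN_smul C ?_, (three_iff W hΔ).2 ⟨0, d, C, hC⟩⟩
  rw [hC]
  exact autN_tc hw

end

end Pool.Agent.Lib.MP_1a91b9_ntS3.CM
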